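import Pool.Agent.Helper313LB.Tower

/-!
# A lower bound for the number of extensions of degree `n` of a number field

Let `K` be a number field, `n ≥ 2` and `p` the least prime factor of `n`. The number of extensions of
`K` of degree `n` with discriminant at most `X` is at least `c X ^ (1/2 + 1/p)`, `c > 0`, for all large
`X`. For `n = p` prime the exponent is `1/2 + 1/n`.

The proof (elementary; no sieve). For `n = p` prime let `S(R)` be the set of the integers `α` of degree
`p` over `K`, of trace zero, all of whose conjugates are at most `R` in absolute value. It has about
`R ^ (d (p(p+1)/2 - 1))` elements, `d = [K : ℚ]`: count the minimal polynomials, the irreducible ones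
being found with Eisenstein's criterion. The trace zero integers of ONE extension `L/K` of degree `p`
form a lattice of rank `d (p - 1)`, and all of them except `0` generate `L` and have degree `p`. So the
number of those of size at most `R` is at most `(1 + 2t) ^ (d (p - 1))` times the number of those of size
at most `R/t`, plus one for `0` (packing of balls). Summing over the fields `L` which have an element in
`S(R)` gives `|S(R)| ≤ (1 + 2t) ^ (d (p - 1)) (|S(R/t)| + number of fields)`, and as
`d (p(p+1)/2 - 1) > d (p - 1)`, the term with `S(R/t)` is at most half of `|S(R)|` for a large constant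
`t`. So the number of the fields generated by `S(R)` has the order of magnitude of `|S(R)|`; their
discriminants are at most a constant times `R ^ (d p (p - 1))`. For general `n` let `F/K` be an extension
of degree `n/p` and take the extensions of `F` of degree `p`.
-/

set_option autoImplicit false

open Filter

namespace Pool.Agent.Results.MP_bf81c2_nt.LeastPrimeFactor

/-- The extensions `L` of `K` of degree `n` in the algebraic closure with `|d_L| ≤ X`. -/
def Fields (K : Type) [Field K] [NumberField K] (n : ℕ) (X : ℝ) :
    Set (IntermediateField K (AlgebraicClosure K)) :=
  {L | Module.finrank K L = n ∧ ∃ h : NumberField L, ((|@NumberField.discr L _ h| : ℤ) : ℝ) ≤ X}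

/-- The number of extensions of degree `n` is at least `c X ^ (1/2 + 1/p)`, `p` the least prime factor
of `n`. -/
theorem result (K : Type) [Field K] [NumberField K] (n : ℕ) (hn : 2 ≤ n) :
    ∃ c : ℝ, 0 < c ∧ ∀ᶠ X : ℝ in atTop, (Fields K n X).Finite ∧
      c * X ^ ((1 : ℝ) / 2 + 1 / (n.minFac : ℝ)) ≤ ((Fields K n X).ncard : ℝ) := by
  obtain ⟨c, hc, h⟩ := Pool.Agent.Helper313LB.lower K (AlgebraicClosure K) n hn
  refine ⟨c, hc, ?_⟩
  filter_upwards [h] with X hX
  exact ⟨Pool.Agent.Helper313LB.finite_Fld K (AlgebraicClosure K) X, hX⟩

end Pool.Agent.Results.MP_bf81c2_nt.LeastPrimeFactor
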